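import Mathlib

set_option autoImplicit false

namespace Pool.Agent.Results.MP_886b5a_gt.CubicKlein

open Real

/-- `S` is an algebraic surface of order 3 in the sense of the problem: the common zero set of
finitely many real polynomials in four variables, each of degree at most 3. -/
def IsOrderThree (S : Set (EuclideanSpace ℝ (Fin 4))) : Prop :=
  ∃ I : List (MvPolynomial (Fin 4) ℝ), (∀ P ∈ I, P.totalDegree ≤ 3) ∧
    S = {p | ∀ P ∈ I, MvPolynomial.eval (fun i => p i) P = 0}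

/-- `F` is an isometric immersion of the flat Klein bottle `K_{c,d}` into Euclidean 4-space,
written as a map of the universal covering: `F` is smooth, compatible with the two
identifications `(x, 0) = (x, d)` and `(0, y) = (c, d - y)`, and its derivative preserves the
Euclidean norm. -/
structure IsKleinImmersion (c d : ℝ) (F : ℝ × ℝ → EuclideanSpace ℝ (Fin 4)) : Prop where
  smooth : ContDiff ℝ ((⊤ : ℕ∞) : WithTop ℕ∞) F
  trans : ∀ x y, F (x, y + d) = F (x, y)
  flip : ∀ x y, F (x + c, d - y) = F (x, y)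
  isom : ∀ (p : ℝ × ℝ) (a b : ℝ), ‖fderiv ℝ F p (a, b)‖ ^ 2 = a ^ 2 + b ^ 2

/-- `p` and `q` represent the same point of `K_{c,d}`. -/
def SamePoint (c d : ℝ) (p q : ℝ × ℝ) : Prop :=
  ∃ m n : ℤ, q.1 = p.1 + m * c ∧ q.2 = (-1) ^ m * p.2 + n * d

/-- `p` lies on one of the two closed geodesics `y = 0` and `y = d / 2` of length `c`. -/
def OnCore (d : ℝ) (p : ℝ × ℝ) : Prop := ∃ k : ℤ, p.2 = k * (d / 2)

/-- The speed of the profile curve. -/
noncomputable def hh (s t : ℝ) : ℝ := √((1 - s ^ 2) * (1 + 3 * cos t ^ 2 - s ^ 2 * sin t ^ 2))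

theorem rad_pos (s t : ℝ) (hs0 : 0 ≤ s) (hs1 : s < 1) :
    0 < (1 - s ^ 2) * (1 + 3 * cos t ^ 2 - s ^ 2 * sin t ^ 2) := by
  have h1 : 0 < 1 - s ^ 2 := by nlinarith
  have h2 : s ^ 2 * sin t ^ 2 ≤ s ^ 2 := by
    nlinarith [sin_sq_le_one t, sq_nonneg s]
  have h3 : 0 ≤ cos t ^ 2 := sq_nonneg _
  exact mul_pos h1 (by linarith)

theorem hh_sq (s t : ℝ) (hs0 : 0 ≤ s) (hs1 : s < 1) :
    hh s t ^ 2 = (1 - s ^ 2) * (1 + 3 * cos t ^ 2 - s ^ 2 * sin t ^ 2) :=
  sq_sqrt (rad_pos s t hs0 hs1).le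

theorem hh_pos (s t : ℝ) (hs0 : 0 ≤ s) (hs1 : s < 1) : 0 < hh s t :=
  sqrt_pos.2 (rad_pos s t hs0 hs1)

theorem hh_ge (s t : ℝ) (hs0 : 0 ≤ s) (hs1 : s < 1) : 1 - s ^ 2 ≤ hh s t := by
  have h1 : 0 < 1 - s ^ 2 := by nlinarith
  apply le_sqrt_of_sq_le
  rw [pow_two]
  apply mul_le_mul_of_nonneg_left _ h1.le
  nlinarith [sin_sq_le_one t, sq_nonneg s, sq_nonneg (cos t)]

theorem hh_contDiff (s : ℝ) (hs0 : 0 ≤ s) (hs1 : s < 1) :
    ContDiff ℝ ((⊤ : ℕ∞) : WithTop ℕ∞) (hh s) := by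
  unfold hh
  apply ContDiff.sqrt
  · fun_prop
  · intro t
    exact (rad_pos s t hs0 hs1).ne'

theorem hh_cont2 : Continuous (Function.uncurry hh) := by
  unfold hh Function.uncurry
  fun_prop

/-- Every total length between `0` and the length for `s = 0` occurs. -/
theorem exists_s (D : ℝ) (hD : 0 < D)
    (hD' : D ≤ ∫ t in (0 : ℝ)..(2 * π), √(1 + 3 * cos t ^ 2)) :
    ∃ s : ℝ, 0 ≤ s ∧ s < 1 ∧ ∫ t in (0 : ℝ)..(2 * π), hh s t = D := by
  have hcont : Continuous (fun s : ℝ => ∫ t in (0 : ℝ)..(2 * π), hh s t) :=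
    intervalIntegral.continuous_parametric_intervalIntegral_of_continuous' hh_cont2 0 (2 * π)
  have h1 : ∫ t in (0 : ℝ)..(2 * π), hh 1 t = 0 := by
    have : ∀ t, hh 1 t = 0 := by intro t; simp [hh]
    simp [this]
  have h0 : ∫ t in (0 : ℝ)..(2 * π), hh 0 t = ∫ t in (0 : ℝ)..(2 * π), √(1 + 3 * cos t ^ 2) := by
    have : ∀ t, hh 0 t = √(1 + 3 * cos t ^ 2) := by intro t; simp [hh]
    simp [this]
  have hmem : D ∈ Set.Icc (∫ t in (0 : ℝ)..(2 * π), hh 1 t) (∫ t in (0 : ℝ)..(2 * π), hh 0 t) := by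
    rw [h1, h0]; exact ⟨hD.le, hD'⟩
  obtain ⟨s, ⟨hs0, hs1⟩, hs⟩ := intermediate_value_Icc' (zero_le_one : (0 : ℝ) ≤ 1)
    hcont.continuousOn hmem
  refine ⟨s, hs0, lt_of_le_of_ne hs1 ?_, hs⟩
  rintro rfl
  have : D = 0 := by rw [← hs]; exact h1
  linarith

/-- The inverse of the arc length function. -/
theorem exists_theta (s lam : ℝ) (hs0 : 0 ≤ s) (hs1 : s < 1) (hl : 0 < lam) :
    ∃ Θ : ℝ → ℝ, ContDiff ℝ ((⊤ : ℕ∞) : WithTop ℕ∞) Θ ∧
      (∀ y, HasDerivAt Θ (1 / (lam * hh s (Θ y))) y) ∧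
      Function.Surjective Θ ∧ Function.Injective Θ ∧ (∀ y, Θ (-y) = -Θ y) ∧
      (∀ y, Θ (y + lam * ∫ t in (0 : ℝ)..(2 * π), hh s t) = Θ y + 2 * π) := by
  have hhc : Continuous (hh s) := (hh_contDiff s hs0 hs1).continuous
  have hs2 : 0 < 1 - s ^ 2 := by nlinarith
  obtain ⟨Y, hY⟩ : ∃ Y : ℝ → ℝ, Y = fun t => lam * ∫ u in (0 : ℝ)..t, hh s u := ⟨_, rfl⟩
  have hYd : ∀ t, HasDerivAt Y (lam * hh s t) t := by
    intro t
    rw [hY]
    exact ((hhc.integral_hasStrictDerivAt 0 t).hasDerivAt).const_mul lam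
  have hpos : ∀ t, 0 < lam * hh s t := fun t => mul_pos hl (hh_pos s t hs0 hs1)
  have hYm : StrictMono Y := strictMono_of_deriv_pos fun t => by rw [(hYd t).deriv]; exact hpos t
  have hY0 : Y 0 = 0 := by rw [hY]; simp
  have hYc : Continuous Y := continuous_iff_continuousAt.2 fun t => (hYd t).continuousAt
  have hc : 0 < lam * (1 - s ^ 2) := mul_pos hl hs2
  have hZ : Monotone (fun t => Y t - lam * (1 - s ^ 2) * t) := by
    have hd : ∀ t, HasDerivAt (fun t => Y t - lam * (1 - s ^ 2) * t)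
        (lam * hh s t - lam * (1 - s ^ 2)) t := by
      intro t
      have h1 := (hYd t).sub ((hasDerivAt_id t).const_mul (lam * (1 - s ^ 2)))
      rw [mul_one] at h1
      exact h1
    refine monotone_of_deriv_nonneg (fun t => (hd t).differentiableAt) fun t => ?_
    rw [(hd t).deriv]
    have := mul_le_mul_of_nonneg_left (hh_ge s t hs0 hs1) hl.le
    linarith
  have hsurj : Function.Surjective Y := by
    refine hYc.surjective ?_ ?_
    · refine Filter.tendsto_atTop_mono' Filter.atTop (f₁ := fun t => lam * (1 - s ^ 2) * t) ?_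
        (Filter.tendsto_id.const_mul_atTop hc)
      filter_upwards [Filter.eventually_ge_atTop 0] with t ht
      have h1 : Y 0 - lam * (1 - s ^ 2) * 0 ≤ Y t - lam * (1 - s ^ 2) * t := hZ ht
      rw [hY0] at h1
      linarith
    · refine Filter.tendsto_atBot_mono' Filter.atBot (f₁ := fun t => lam * (1 - s ^ 2) * t) ?_
        (Filter.tendsto_id.const_mul_atBot hc)
      filter_upwards [Filter.eventually_le_atBot 0] with t ht
      have h1 : Y t - lam * (1 - s ^ 2) * t ≤ Y 0 - lam * (1 - s ^ 2) * 0 := hZ ht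
      rw [hY0] at h1
      linarith
  obtain ⟨e, he⟩ : ∃ e : ℝ ≃o ℝ, ∀ t, e t = Y t :=
    ⟨hYm.orderIsoOfSurjective Y hsurj, fun t => rfl⟩
  have hYΘ : ∀ y, Y (e.symm y) = y := fun y => by rw [← he, e.apply_symm_apply]
  have hΘc : Continuous (fun y => e.symm y) := e.symm.continuous
  have hΘd : ∀ y, HasDerivAt (fun y => e.symm y) (1 / (lam * hh s (e.symm y))) y := by
    intro y
    rw [one_div]
    exact HasDerivAt.of_local_left_inverse (hΘc.continuousAt) (hYd (e.symm y))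
      (hpos _).ne' (Filter.Eventually.of_forall hYΘ)
  have hΘinj : Function.Injective (fun y => e.symm y) := e.symm.injective
  refine ⟨fun y => e.symm y, ?_, hΘd, e.symm.surjective, hΘinj, ?_, ?_⟩
  · have hn : ∀ n : ℕ, ContDiff ℝ n (fun y => e.symm y) := by
      intro n
      induction n with
      | zero => exact contDiff_zero.2 hΘc
      | succ n ih =>
        have h1 : deriv (fun y => e.symm y) = fun y => 1 / (lam * hh s (e.symm y)) :=
          funext fun y => (hΘd y).deriv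
        have h2 : ContDiff ℝ n (fun y => 1 / (lam * hh s (e.symm y))) := by
          refine contDiff_const.div (contDiff_const.mul ?_) fun y => (hpos _).ne'
          exact ((hh_contDiff s hs0 hs1).of_le (by exact_mod_cast le_top)).comp ih
        have h3 : ContDiff ℝ ((n : WithTop ℕ∞) + 1) (fun y => e.symm y) := by
          rw [contDiff_succ_iff_deriv]
          refine ⟨fun y => (hΘd y).differentiableAt, fun h => ?_, by rw [h1]; exact h2⟩
          exact absurd h (by simp)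
        exact_mod_cast h3
    exact contDiff_infty.2 hn
  · have hodd : ∀ t, Y (-t) = -Y t := by
      intro t
      rw [hY]
      show lam * ∫ u in (0 : ℝ)..(-t), hh s u = -(lam * ∫ u in (0 : ℝ)..t, hh s u)
      have h1 : ∀ u, hh s (-u) = hh s u := by
        intro u
        unfold hh
        rw [cos_neg, sin_neg, neg_sq]
      have h2 := intervalIntegral.integral_comp_neg (a := t) (b := 0) (hh s)
      rw [neg_zero] at h2
      rw [← h2]
      simp only [h1]
      rw [intervalIntegral.integral_symm, mul_neg]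
    intro y
    apply hYm.injective
    rw [hYΘ, hodd, hYΘ]
  · have hper : ∀ t, Y (t + 2 * π) = Y t + lam * ∫ u in (0 : ℝ)..(2 * π), hh s u := by
      intro t
      rw [hY]
      show lam * ∫ u in (0 : ℝ)..(t + 2 * π), hh s u =
        lam * (∫ u in (0 : ℝ)..t, hh s u) + lam * ∫ u in (0 : ℝ)..(2 * π), hh s u
      have h1 : Function.Periodic (hh s) (2 * π) := by
        intro u
        unfold hh
        rw [cos_add_two_pi, sin_add_two_pi]
      have h2 := h1.intervalIntegral_add_eq t 0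
      rw [zero_add] at h2
      rw [← h2, ← mul_add, intervalIntegral.integral_add_adjacent_intervals
        (hhc.intervalIntegrable _ _) (hhc.intervalIntegrable _ _)]
    intro y
    apply hYm.injective
    rw [hYΘ, hper, hYΘ]

/-- The surface. -/
noncomputable def G (s lam u t : ℝ) : EuclideanSpace ℝ (Fin 4) :=
  !₂[lam * (√(1 - s ^ 2) * cos t * cos u + s * sin u),
    lam * (√(1 - s ^ 2) * cos t * sin u - s * cos u),
    lam * (2 * √(1 - s ^ 2) * sin t * cos (u / 2)),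
    lam * (2 * √(1 - s ^ 2) * sin t * sin (u / 2))]

/-- The surface in isometric coordinates. -/
noncomputable def FF (s lam : ℝ) (Θ : ℝ → ℝ) (p : ℝ × ℝ) : EuclideanSpace ℝ (Fin 4) :=
  G s lam (p.1 / lam - s * √(1 - s ^ 2) * cos (Θ p.2)) (Θ p.2)

theorem FF_smooth (s lam : ℝ) (Θ : ℝ → ℝ) (hΘ : ContDiff ℝ ((⊤ : ℕ∞) : WithTop ℕ∞) Θ) :
    ContDiff ℝ ((⊤ : ℕ∞) : WithTop ℕ∞) (FF s lam Θ) := by
  have h2 : ContDiff ℝ ((⊤ : ℕ∞) : WithTop ℕ∞) (fun p : ℝ × ℝ => Θ p.2) := hΘ.comp contDiff_snd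
  have hc : ContDiff ℝ ((⊤ : ℕ∞) : WithTop ℕ∞) (fun p : ℝ × ℝ => cos (Θ p.2)) :=
    contDiff_cos.comp h2
  have hs : ContDiff ℝ ((⊤ : ℕ∞) : WithTop ℕ∞) (fun p : ℝ × ℝ => sin (Θ p.2)) :=
    contDiff_sin.comp h2
  have hu : ContDiff ℝ ((⊤ : ℕ∞) : WithTop ℕ∞)
      (fun p : ℝ × ℝ => p.1 / lam - s * √(1 - s ^ 2) * cos (Θ p.2)) :=
    (contDiff_fst.div_const lam).sub (contDiff_const.mul hc)
  have hcu := contDiff_cos.comp hu
  have hsu := contDiff_sin.comp hu
  have hcu2 := contDiff_cos.comp (hu.div_const 2)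
  have hsu2 := contDiff_sin.comp (hu.div_const 2)
  rw [contDiff_euclidean]
  intro i
  fin_cases i
  · exact contDiff_const.mul (((contDiff_const.mul hc).mul hcu).add (contDiff_const.mul hsu))
  · exact contDiff_const.mul (((contDiff_const.mul hc).mul hsu).sub (contDiff_const.mul hcu))
  · exact contDiff_const.mul ((contDiff_const.mul hs).mul hcu2)
  · exact contDiff_const.mul ((contDiff_const.mul hs).mul hsu2)

theorem FF_isom_alg (s C h a b A κ c σ cu su ch sh : ℝ) (E1 : cu ^ 2 + su ^ 2 = 1)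
    (E2 : ch ^ 2 + sh ^ 2 = 1) (E3 : c ^ 2 + σ ^ 2 = 1) (EC : C ^ 2 = 1 - s ^ 2)
    (Eh : h ^ 2 = (1 - s ^ 2) * (1 + 3 * c ^ 2 - s ^ 2 * σ ^ 2)) (Ek : κ * h = b)
    (EA : A = a + s * C * σ * κ) :
    (-(C * σ * κ * cu) + A * (-(C * c * su) + s * cu)) ^ 2 +
      (-(C * σ * κ * su) + A * (C * c * cu + s * su)) ^ 2 +
      (2 * C * c * κ * ch - A * C * σ * sh) ^ 2 +
      (2 * C * c * κ * sh + A * C * σ * ch) ^ 2 = a ^ 2 + b ^ 2 := by
  linear_combination (C ^ 2 * σ ^ 2 * κ ^ 2 + A ^ 2 * (C ^ 2 * c ^ 2 + s ^ 2) -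
      2 * A * C * σ * κ * s) * E1 + (4 * C ^ 2 * c ^ 2 * κ ^ 2 + A ^ 2 * C ^ 2 * σ ^ 2) * E2 +
    (C ^ 2 * κ ^ 2 + A ^ 2 * C ^ 2) * E3 +
    (A ^ 2 + κ ^ 2 * (1 + 3 * c ^ 2 - s ^ 2 * σ ^ 2)) * EC +
    (A - s * C * σ * κ + a) * EA - κ ^ 2 * Eh + (κ * h + b) * Ek

theorem FF_isom (s lam : ℝ) (hs0 : 0 ≤ s) (hs1 : s < 1) (hl : 0 < lam) (Θ : ℝ → ℝ)
    (hΘ : ContDiff ℝ ((⊤ : ℕ∞) : WithTop ℕ∞) Θ)
    (hd : ∀ y, HasDerivAt Θ (1 / (lam * hh s (Θ y))) y) (p : ℝ × ℝ) (a b : ℝ) :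
    ‖fderiv ℝ (FF s lam Θ) p (a, b)‖ ^ 2 = a ^ 2 + b ^ 2 := by
  have hF : HasFDerivAt (FF s lam Θ) (fderiv ℝ (FF s lam Θ) p) p :=
    ((FF_smooth s lam Θ hΘ).differentiable (by simp)).differentiableAt.hasFDerivAt
  set v := fderiv ℝ (FF s lam Θ) p (a, b) with hv
  have hc : HasDerivAt (fun t : ℝ => ((p.1 + t * a, p.2 + t * b) : ℝ × ℝ)) (a, b) 0 := by
    have h1 : HasDerivAt (fun t : ℝ => p.1 + t * a) a 0 := by
      simpa using ((hasDerivAt_id (0 : ℝ)).mul_const a).const_add p.1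
    have h2 : HasDerivAt (fun t : ℝ => p.2 + t * b) b 0 := by
      simpa using ((hasDerivAt_id (0 : ℝ)).mul_const b).const_add p.2
    exact h1.prodMk h2
  have hcomp : HasDerivAt (fun t : ℝ => FF s lam Θ (p.1 + t * a, p.2 + t * b)) v 0 := by
    have hF' : HasFDerivAt (FF s lam Θ) (fderiv ℝ (FF s lam Θ) p)
        ((fun t : ℝ => ((p.1 + t * a, p.2 + t * b) : ℝ × ℝ)) 0) := by
      simpa using hF
    exact hF'.comp_hasDerivAt 0 hc
  have hi : ∀ i : Fin 4, HasDerivAt (fun t : ℝ => FF s lam Θ (p.1 + t * a, p.2 + t * b) i) (v i) 0 := by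
    intro i
    exact (EuclideanSpace.proj (𝕜 := ℝ) i).hasFDerivAt.comp_hasDerivAt 0 hcomp
  set θ0 := Θ p.2 with hθ0
  set h := hh s θ0 with hh0
  have hhpos : 0 < h := hh_pos s θ0 hs0 hs1
  set C := √(1 - s ^ 2) with hC
  have hCsq : C ^ 2 = 1 - s ^ 2 := sq_sqrt (by nlinarith)
  set u0 := p.1 / lam - s * C * cos θ0 with hu0
  set T' := 1 / (lam * h) * b with hT'
  set u' := a / lam + s * C * sin θ0 * T' with hu'
  have hT : HasDerivAt (fun t : ℝ => Θ (p.2 + t * b)) T' 0 := by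
    have h2 : HasDerivAt (fun t : ℝ => p.2 + t * b) b 0 := by
      simpa using ((hasDerivAt_id (0 : ℝ)).mul_const b).const_add p.2
    have h3 : HasDerivAt Θ (1 / (lam * h)) ((fun t : ℝ => p.2 + t * b) 0) := by
      simpa using hd p.2
    exact h3.comp 0 h2
  have hT0 : (fun t : ℝ => Θ (p.2 + t * b)) 0 = θ0 := by simp [hθ0]
  have hcT : HasDerivAt (fun t : ℝ => cos (Θ (p.2 + t * b))) (-sin θ0 * T') 0 := by
    have := hT.cos
    simpa [hθ0] using this
  have hsT : HasDerivAt (fun t : ℝ => sin (Θ (p.2 + t * b))) (cos θ0 * T') 0 := by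
    have := hT.sin
    simpa [hθ0] using this
  have hu : HasDerivAt (fun t : ℝ => (p.1 + t * a) / lam - s * C * cos (Θ (p.2 + t * b))) u' 0 := by
    have h1 : HasDerivAt (fun t : ℝ => p.1 + t * a) a 0 := by
      simpa using ((hasDerivAt_id (0 : ℝ)).mul_const a).const_add p.1
    have h4 := (h1.div_const lam).sub (hcT.const_mul (s * C))
    refine h4.congr_deriv ?_
    rw [hu']; ring
  have hu00 : (fun t : ℝ => (p.1 + t * a) / lam - s * C * cos (Θ (p.2 + t * b))) 0 = u0 := by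
    simp [hu0, hθ0]
  have hcu : HasDerivAt (fun t : ℝ => cos ((p.1 + t * a) / lam - s * C * cos (Θ (p.2 + t * b))))
      (-sin u0 * u') 0 := by
    have := hu.cos
    simpa [hu0, hθ0] using this
  have hsu : HasDerivAt (fun t : ℝ => sin ((p.1 + t * a) / lam - s * C * cos (Θ (p.2 + t * b))))
      (cos u0 * u') 0 := by
    have := hu.sin
    simpa [hu0, hθ0] using this
  have hcu2 : HasDerivAt (fun t : ℝ => cos (((p.1 + t * a) / lam - s * C * cos (Θ (p.2 + t * b))) / 2))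
      (-sin (u0 / 2) * (u' / 2)) 0 := by
    have := (hu.div_const 2).cos
    simpa [hu0, hθ0] using this
  have hsu2 : HasDerivAt (fun t : ℝ => sin (((p.1 + t * a) / lam - s * C * cos (Θ (p.2 + t * b))) / 2))
      (cos (u0 / 2) * (u' / 2)) 0 := by
    have := (hu.div_const 2).sin
    simpa [hu0, hθ0] using this
  have e0 : v 0 = -(C * sin θ0 * (lam * T') * cos u0) + (lam * u') * (-(C * cos θ0 * sin u0) + s * cos u0) := by
    have h5 := (((hcT.const_mul C).mul hcu).add (hsu.const_mul s)).const_mul lam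
    refine (hi 0).unique (h5.congr_deriv ?_)
    simp only [zero_mul, add_zero, ← hθ0, ← hu0]
    ring
  have e1 : v 1 = -(C * sin θ0 * (lam * T') * sin u0) + (lam * u') * (C * cos θ0 * cos u0 + s * sin u0) := by
    have h5 := (((hcT.const_mul C).mul hsu).sub (hcu.const_mul s)).const_mul lam
    refine (hi 1).unique (h5.congr_deriv ?_)
    simp only [zero_mul, add_zero, ← hθ0, ← hu0]
    ring
  have e2 : v 2 = 2 * C * cos θ0 * (lam * T') * cos (u0 / 2) - (lam * u') * C * sin θ0 * sin (u0 / 2) := by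
    have h5 := ((hsT.const_mul (2 * C)).mul hcu2).const_mul lam
    refine (hi 2).unique (h5.congr_deriv ?_)
    simp only [zero_mul, add_zero, ← hθ0, ← hu0]
    ring
  have e3 : v 3 = 2 * C * cos θ0 * (lam * T') * sin (u0 / 2) + (lam * u') * C * sin θ0 * cos (u0 / 2) := by
    have h5 := ((hsT.const_mul (2 * C)).mul hsu2).const_mul lam
    refine (hi 3).unique (h5.congr_deriv ?_)
    simp only [zero_mul, add_zero, ← hθ0, ← hu0]
    ring
  rw [EuclideanSpace.norm_sq_eq, Fin.sum_univ_four, Real.norm_eq_abs, Real.norm_eq_abs,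
    Real.norm_eq_abs, Real.norm_eq_abs, sq_abs, sq_abs, sq_abs, sq_abs, e0, e1, e2, e3]
  apply FF_isom_alg s C h a b (lam * u') (lam * T') (cos θ0) (sin θ0) (cos u0) (sin u0)
    (cos (u0 / 2)) (sin (u0 / 2)) (cos_sq_add_sin_sq u0) (cos_sq_add_sin_sq _)
    (cos_sq_add_sin_sq _) hCsq (hh_sq s θ0 hs0 hs1)
  · rw [hT']; field_simp
  · rw [hu', mul_add]; field_simp

theorem G_zero (s lam u t : ℝ) (hs0 : 0 ≤ s) (hs1 : s < 1) :
    4 * (G s lam u t 0 ^ 2 + G s lam u t 1 ^ 2) + G s lam u t 2 ^ 2 + G s lam u t 3 ^ 2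
      = 4 * lam ^ 2 ∧
    2 * G s lam u t 0 * G s lam u t 2 * G s lam u t 3 - G s lam u t 1 * G s lam u t 2 ^ 2
      + G s lam u t 1 * G s lam u t 3 ^ 2
      = s * lam * (G s lam u t 2 ^ 2 + G s lam u t 3 ^ 2) := by
  have e0 : G s lam u t 0 = lam * (√(1 - s ^ 2) * cos t * cos u + s * sin u) := rfl
  have e1 : G s lam u t 1 = lam * (√(1 - s ^ 2) * cos t * sin u - s * cos u) := rfl
  have e2 : G s lam u t 2 = lam * (2 * √(1 - s ^ 2) * sin t * cos (u / 2)) := rfl
  have e3 : G s lam u t 3 = lam * (2 * √(1 - s ^ 2) * sin t * sin (u / 2)) := rfl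
  rw [e0, e1, e2, e3]
  have hC : √(1 - s ^ 2) ^ 2 = 1 - s ^ 2 := Real.sq_sqrt (by nlinarith)
  have hu : cos (u / 2) ^ 2 + sin (u / 2) ^ 2 = 1 := by
    rw [add_comm]; exact Real.sin_sq_add_cos_sq _
  have ht : sin t ^ 2 + cos t ^ 2 = 1 := Real.sin_sq_add_cos_sq t
  have hcu : cos u = cos (u / 2) ^ 2 - sin (u / 2) ^ 2 := by
    have := Real.cos_two_mul' (u / 2)
    rw [show 2 * (u / 2) = u by ring] at this
    exact this
  have hsu : sin u = 2 * sin (u / 2) * cos (u / 2) := by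
    have := Real.sin_two_mul (u / 2)
    rw [show 2 * (u / 2) = u by ring] at this
    exact this
  have huu : sin u ^ 2 + cos u ^ 2 = 1 := Real.sin_sq_add_cos_sq u
  set C := √(1 - s ^ 2) with hCdef
  set p := cos (u / 2) with hp
  set q := sin (u / 2) with hq
  constructor
  · have : 4 * ((lam * (C * cos t * cos u + s * sin u)) ^ 2 + (lam * (C * cos t * sin u - s * cos u)) ^ 2)
        + (lam * (2 * C * sin t * p)) ^ 2 + (lam * (2 * C * sin t * q)) ^ 2
        = 4 * lam ^ 2 * ((C ^ 2 * cos t ^ 2 + s ^ 2) * (sin u ^ 2 + cos u ^ 2)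
          + C ^ 2 * sin t ^ 2 * (p ^ 2 + q ^ 2)) := by ring
    rw [this, huu, hu]
    have h5 : (C ^ 2 * cos t ^ 2 + s ^ 2) * 1 + C ^ 2 * sin t ^ 2 * 1
        = C ^ 2 * (sin t ^ 2 + cos t ^ 2) + s ^ 2 := by ring
    rw [h5, ht, hC]
    ring
  · have : 2 * (lam * (C * cos t * cos u + s * sin u)) * (lam * (2 * C * sin t * p))
          * (lam * (2 * C * sin t * q))
        - lam * (C * cos t * sin u - s * cos u) * (lam * (2 * C * sin t * p)) ^ 2
        + lam * (C * cos t * sin u - s * cos u) * (lam * (2 * C * sin t * q)) ^ 2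
        = 4 * lam ^ 3 * C ^ 2 * sin t ^ 2 * ((C * cos t * cos u + s * sin u) * (2 * q * p)
          - (C * cos t * sin u - s * cos u) * (p ^ 2 - q ^ 2)) := by ring
    rw [this, ← hcu, ← hsu]
    have h5 : (C * cos t * cos u + s * sin u) * sin u - (C * cos t * sin u - s * cos u) * cos u
        = s * (sin u ^ 2 + cos u ^ 2) := by ring
    rw [h5, huu]
    have h6 : s * lam * ((lam * (2 * C * sin t * p)) ^ 2 + (lam * (2 * C * sin t * q)) ^ 2)
        = 4 * lam ^ 3 * C ^ 2 * sin t ^ 2 * (s * (p ^ 2 + q ^ 2)) := by ring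
    rw [h6, hu]

theorem exists_angle (a b : ℝ) (h : a ^ 2 + b ^ 2 = 1) : ∃ t : ℝ, cos t = a ∧ sin t = b := by
  have hn : ‖(⟨a, b⟩ : ℂ)‖ = 1 := by
    rw [Complex.norm_def, Complex.normSq_mk]
    rw [show a * a + b * b = 1 by nlinarith, Real.sqrt_one]
  have h0 : (⟨a, b⟩ : ℂ) ≠ 0 := by
    intro hh
    rw [hh] at hn
    simp at hn
  refine ⟨Complex.arg ⟨a, b⟩, ?_, ?_⟩
  · rw [Complex.cos_arg h0, hn]
    simp
  · rw [Complex.sin_arg, hn]
    simp

theorem G_surj_aux (x y z : ℝ) (hz : 0 < z) (h : 4 * x ^ 2 + y ^ 2 = 4 * z ^ 2) :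
    (x / z) ^ 2 + (y / (2 * z)) ^ 2 = 1 := by
  have h1 : (x / z) ^ 2 + (y / (2 * z)) ^ 2 = (4 * x ^ 2 + y ^ 2) / (4 * z ^ 2) := by
    field_simp
    ring
  rw [h1, h, div_self (by positivity)]

theorem G_surj (s lam : ℝ) (hs0 : 0 ≤ s) (hs1 : s < 1) (hl : 0 < lam) (a b c d : ℝ)
    (h1 : 4 * (a ^ 2 + b ^ 2) + c ^ 2 + d ^ 2 = 4 * lam ^ 2)
    (h2 : 2 * a * c * d - b * c ^ 2 + b * d ^ 2 = s * lam * (c ^ 2 + d ^ 2)) :
    ∃ u t : ℝ, G s lam u t = !₂[a, b, c, d] := by
  have hCpos : 0 < √(1 - s ^ 2) := Real.sqrt_pos.mpr (by nlinarith)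
  have hC : √(1 - s ^ 2) ^ 2 = 1 - s ^ 2 := Real.sq_sqrt (by nlinarith)
  obtain ⟨a, rfl⟩ : ∃ a', a = lam * a' := ⟨a / lam, by field_simp⟩
  obtain ⟨b, rfl⟩ : ∃ b', b = lam * b' := ⟨b / lam, by field_simp⟩
  obtain ⟨c, rfl⟩ : ∃ c', c = lam * c' := ⟨c / lam, by field_simp⟩
  obtain ⟨d, rfl⟩ : ∃ d', d = lam * d' := ⟨d / lam, by field_simp⟩
  have h1' : 4 * (a ^ 2 + b ^ 2) + c ^ 2 + d ^ 2 = 4 := by
    have : lam ^ 2 * (4 * (a ^ 2 + b ^ 2) + c ^ 2 + d ^ 2) = lam ^ 2 * 4 := by nlinarith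
    exact mul_left_cancel₀ (by positivity) this
  have h2' : 2 * a * c * d - b * c ^ 2 + b * d ^ 2 = s * (c ^ 2 + d ^ 2) := by
    have : lam ^ 3 * (2 * a * c * d - b * c ^ 2 + b * d ^ 2) = lam ^ 3 * (s * (c ^ 2 + d ^ 2)) := by
      nlinarith
    exact mul_left_cancel₀ (by positivity) this
  set C := √(1 - s ^ 2) with hCdef
  by_cases hcd : c ^ 2 + d ^ 2 = 0
  · have hc : c = 0 := by nlinarith [sq_nonneg c, sq_nonneg d]
    have hd : d = 0 := by nlinarith [sq_nonneg c, sq_nonneg d]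
    subst hc
    subst hd
    have hab : a ^ 2 + b ^ 2 = 1 := by nlinarith
    obtain ⟨u, hu1, hu2⟩ := exists_angle (C * a - s * b) (s * a + C * b) (by
      have : (C * a - s * b) ^ 2 + (s * a + C * b) ^ 2 = (C ^ 2 + s ^ 2) * (a ^ 2 + b ^ 2) := by ring
      rw [this, hC, hab]; ring)
    refine ⟨u, 0, ?_⟩
    have k0 : lam * (C * cos 0 * cos u + s * sin u) = lam * a := by
      rw [hu1, hu2, Real.cos_zero]
      have : C * 1 * (C * a - s * b) + s * (s * a + C * b) = (C ^ 2 + s ^ 2) * a := by ring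
      rw [this, hC]; ring
    have k1 : lam * (C * cos 0 * sin u - s * cos u) = lam * b := by
      rw [hu1, hu2, Real.cos_zero]
      have : C * 1 * (s * a + C * b) - s * (C * a - s * b) = (C ^ 2 + s ^ 2) * b := by ring
      rw [this, hC]; ring
    have k2 : lam * (2 * C * sin 0 * cos (u / 2)) = lam * 0 := by rw [Real.sin_zero]; ring
    have k3 : lam * (2 * C * sin 0 * sin (u / 2)) = lam * 0 := by rw [Real.sin_zero]; ring
    unfold G
    rw [← hCdef, k0, k1, k2, k3]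
  · have hpos : 0 < c ^ 2 + d ^ 2 := lt_of_le_of_ne (by positivity) (Ne.symm hcd)
    set R := √(c ^ 2 + d ^ 2) with hR
    have hRpos : 0 < R := Real.sqrt_pos.mpr hpos
    have hR2 : R ^ 2 = c ^ 2 + d ^ 2 := Real.sq_sqrt hpos.le
    obtain ⟨phi, hp1, hp2⟩ := exists_angle (c / R) (d / R) (by
      rw [div_pow, div_pow, ← add_div, hR2, div_self hpos.ne'])
    have hcu : cos (2 * phi) * R ^ 2 = c ^ 2 - d ^ 2 := by
      rw [Real.cos_two_mul', hp1, hp2]
      field_simp
    have hsu : sin (2 * phi) * R ^ 2 = 2 * c * d := by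
      rw [Real.sin_two_mul, hp1, hp2]
      field_simp
    have hrel : a * sin (2 * phi) - b * cos (2 * phi) = s := by
      have h5 : (a * sin (2 * phi) - b * cos (2 * phi)) * R ^ 2 = s * R ^ 2 := by
        calc (a * sin (2 * phi) - b * cos (2 * phi)) * R ^ 2
            = a * (sin (2 * phi) * R ^ 2) - b * (cos (2 * phi) * R ^ 2) := by ring
          _ = 2 * a * c * d - b * c ^ 2 + b * d ^ 2 := by rw [hcu, hsu]; ring
          _ = s * R ^ 2 := by rw [h2', hR2]
      exact mul_right_cancel₀ (by positivity) h5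
    have hone : sin (2 * phi) ^ 2 + cos (2 * phi) ^ 2 = 1 := Real.sin_sq_add_cos_sq _
    set A := a * cos (2 * phi) + b * sin (2 * phi) with hA
    have hA2 : A ^ 2 + s ^ 2 = a ^ 2 + b ^ 2 := by
      rw [hA, ← hrel]
      calc (a * cos (2 * phi) + b * sin (2 * phi)) ^ 2 + (a * sin (2 * phi) - b * cos (2 * phi)) ^ 2
          = (a ^ 2 + b ^ 2) * (sin (2 * phi) ^ 2 + cos (2 * phi) ^ 2) := by ring
        _ = a ^ 2 + b ^ 2 := by rw [hone, mul_one]
    have hq : (A / C) ^ 2 + (R / (2 * C)) ^ 2 = 1 := by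
      apply G_surj_aux A R C hCpos
      rw [hC, hR2]
      nlinarith
    obtain ⟨t, ht1, ht2⟩ := exists_angle (A / C) (R / (2 * C)) hq
    refine ⟨2 * phi, t, ?_⟩
    have g1 : C * cos t = A := by rw [ht1]; field_simp
    have g2 : 2 * C * sin t = R := by rw [ht2]; field_simp
    have k0 : lam * (C * cos t * cos (2 * phi) + s * sin (2 * phi)) = lam * a := by
      rw [g1, ← hrel, hA]
      have : (a * cos (2 * phi) + b * sin (2 * phi)) * cos (2 * phi)
          + (a * sin (2 * phi) - b * cos (2 * phi)) * sin (2 * phi)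
          = a * (sin (2 * phi) ^ 2 + cos (2 * phi) ^ 2) := by ring
      rw [this, hone, mul_one]
    have k1 : lam * (C * cos t * sin (2 * phi) - s * cos (2 * phi)) = lam * b := by
      rw [g1, ← hrel, hA]
      have : (a * cos (2 * phi) + b * sin (2 * phi)) * sin (2 * phi)
          - (a * sin (2 * phi) - b * cos (2 * phi)) * cos (2 * phi)
          = b * (sin (2 * phi) ^ 2 + cos (2 * phi) ^ 2) := by ring
      rw [this, hone, mul_one]
    have k2 : lam * (2 * C * sin t * cos (2 * phi / 2)) = lam * c := by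
      rw [g2, show 2 * phi / 2 = phi by ring, hp1]
      field_simp
    have k3 : lam * (2 * C * sin t * sin (2 * phi / 2)) = lam * d := by
      rw [g2, show 2 * phi / 2 = phi by ring, hp2]
      field_simp
    unfold G
    rw [← hCdef, k0, k1, k2, k3]

private theorem aux_angle {a b : ℝ} (hc : cos a = cos b) (hs : sin a = sin b) :
    ∃ k : ℤ, a = b + 2 * π * k := by
  have h := Real.Angle.cos_sin_inj hc hs
  rw [Real.Angle.angle_eq_iff_two_pi_dvd_sub] at h
  obtain ⟨k, hk⟩ := h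
  exact ⟨k, by linarith⟩

theorem G_inj (s lam : ℝ) (hs0 : 0 ≤ s) (hs1 : s < 1) (hl : 0 < lam) (u t u' t' : ℝ)
    (h : G s lam u t = G s lam u' t') :
    (sin t = 0 ∧ sin t' = 0) ∨ (∃ m n : ℤ, u' = u + 2 * π * m ∧ t' = (-1) ^ m * t + 2 * π * n) := by
  have hC : 0 < √(1 - s ^ 2) := Real.sqrt_pos.2 (by nlinarith)
  have h0 := congrArg (fun v : EuclideanSpace ℝ (Fin 4) => v 0) h
  have h1 := congrArg (fun v : EuclideanSpace ℝ (Fin 4) => v 1) h
  have h2 := congrArg (fun v : EuclideanSpace ℝ (Fin 4) => v 2) h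
  have h3 := congrArg (fun v : EuclideanSpace ℝ (Fin 4) => v 3) h
  simp [G] at h0 h1 h2 h3
  set C := √(1 - s ^ 2) with hCdef
  have hl' : lam ≠ 0 := hl.ne'
  have hC' : C ≠ 0 := hC.ne'
  have e0 : C * cos t * cos u + s * sin u = C * cos t' * cos u' + s * sin u' := by
    rcases h0 with h0 | h0
    · exact h0
    · exact absurd h0 hl'
  have e1 : C * cos t * sin u - s * cos u = C * cos t' * sin u' - s * cos u' := by
    rcases h1 with h1 | h1
    · exact h1
    · exact absurd h1 hl'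
  have e2 : sin t * cos (u / 2) = sin t' * cos (u' / 2) := by
    rcases h2 with h2 | h2
    · have : (2 * C) * (sin t * cos (u / 2)) = (2 * C) * (sin t' * cos (u' / 2)) := by
        linarith
      exact mul_left_cancel₀ (by positivity) this
    · exact absurd h2 hl'
  have e3 : sin t * sin (u / 2) = sin t' * sin (u' / 2) := by
    rcases h3 with h3 | h3
    · have : (2 * C) * (sin t * sin (u / 2)) = (2 * C) * (sin t' * sin (u' / 2)) := by
        linarith
      exact mul_left_cancel₀ (by positivity) this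
    · exact absurd h3 hl'
  have hsq : sin t ^ 2 = sin t' ^ 2 := by
    have p1 := Real.sin_sq_add_cos_sq (u / 2)
    have p2 := Real.sin_sq_add_cos_sq (u' / 2)
    have q2 : (sin t * cos (u / 2)) ^ 2 = (sin t' * cos (u' / 2)) ^ 2 := by rw [e2]
    have q3 : (sin t * sin (u / 2)) ^ 2 = (sin t' * sin (u' / 2)) ^ 2 := by rw [e3]
    have r1 : (sin t * cos (u / 2)) ^ 2 + (sin t * sin (u / 2)) ^ 2 = sin t ^ 2 := by
      have : (sin t * cos (u / 2)) ^ 2 + (sin t * sin (u / 2)) ^ 2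
        = sin t ^ 2 * (sin (u / 2) ^ 2 + cos (u / 2) ^ 2) := by ring
      rw [this, p1, mul_one]
    have r2 : (sin t' * cos (u' / 2)) ^ 2 + (sin t' * sin (u' / 2)) ^ 2 = sin t' ^ 2 := by
      have : (sin t' * cos (u' / 2)) ^ 2 + (sin t' * sin (u' / 2)) ^ 2
        = sin t' ^ 2 * (sin (u' / 2) ^ 2 + cos (u' / 2) ^ 2) := by ring
      rw [this, p2, mul_one]
    linarith
  by_cases hst : sin t = 0
  · left
    refine ⟨hst, ?_⟩
    rw [hst] at hsq
    have : sin t' ^ 2 = 0 := by rw [← hsq]; norm_num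
    exact pow_eq_zero_iff (two_ne_zero) |>.1 this
  right
  have key : cos u' = cos u → sin u' = sin u → cos t' = cos t := by
    intro hcu hsu
    rw [hcu, hsu] at e0 e1
    have p := Real.sin_sq_add_cos_sq u
    have f0 : C * (cos t' - cos t) * cos u = 0 := by linarith
    have f1 : C * (cos t' - cos t) * sin u = 0 := by linarith
    have f2 : C * (cos t' - cos t) = 0 := by
      have : C * (cos t' - cos t) = (C * (cos t' - cos t) * cos u) * cos u
        + (C * (cos t' - cos t) * sin u) * sin u := by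
        have : (C * (cos t' - cos t) * cos u) * cos u
          + (C * (cos t' - cos t) * sin u) * sin u
          = C * (cos t' - cos t) * (sin u ^ 2 + cos u ^ 2) := by ring
        rw [this, p, mul_one]
      rw [this, f0, f1]; ring
    rcases mul_eq_zero.1 f2 with f | f
    · exact absurd f hC'
    · linarith
  rcases sq_eq_sq_iff_eq_or_eq_neg.1 hsq with he | he
  · have c1 : cos (u' / 2) = cos (u / 2) := by
      rw [← he] at e2
      exact (mul_left_cancel₀ hst e2).symm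
    have s1 : sin (u' / 2) = sin (u / 2) := by
      rw [← he] at e3
      exact (mul_left_cancel₀ hst e3).symm
    obtain ⟨k, hk⟩ := aux_angle c1 s1
    have hu : u' = u + (2 * k : ℤ) * (2 * π) := by push_cast; linarith
    have hcu : cos u' = cos u := by rw [hu]; exact Real.cos_add_int_mul_two_pi u _
    have hsu : sin u' = sin u := by rw [hu]; exact Real.sin_add_int_mul_two_pi u _
    obtain ⟨n, hn⟩ := aux_angle (key hcu hsu) he.symm
    refine ⟨2 * k, n, ?_, ?_⟩
    · rw [hu]; push_cast; ring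
    · rw [hn, zpow_mul]; norm_num
  · have he' : sin t' = - sin t := by linarith
    have c1 : cos (u' / 2) = cos (u / 2 + π) := by
      rw [Real.cos_add_pi]
      rw [he'] at e2
      have : sin t * cos (u' / 2) = sin t * (- cos (u / 2)) := by linarith
      exact mul_left_cancel₀ hst this
    have s1 : sin (u' / 2) = sin (u / 2 + π) := by
      rw [Real.sin_add_pi]
      rw [he'] at e3
      have : sin t * sin (u' / 2) = sin t * (- sin (u / 2)) := by linarith
      exact mul_left_cancel₀ hst this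
    obtain ⟨k, hk⟩ := aux_angle c1 s1
    have hu : u' = u + (2 * k + 1 : ℤ) * (2 * π) := by push_cast; linarith
    have hcu : cos u' = cos u := by rw [hu]; exact Real.cos_add_int_mul_two_pi u _
    have hsu : sin u' = sin u := by rw [hu]; exact Real.sin_add_int_mul_two_pi u _
    have hct : cos t' = cos (-t) := by rw [Real.cos_neg]; exact key hcu hsu
    have hst' : sin t' = sin (-t) := by rw [Real.sin_neg]; exact he'
    obtain ⟨n, hn⟩ := aux_angle hct hst'
    refine ⟨2 * k + 1, n, ?_, ?_⟩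
    · rw [hu]; push_cast; ring
    · rw [hn, zpow_add₀ (by norm_num), zpow_mul]; norm_num

theorem order_three (s lam : ℝ) :
    IsOrderThree {p | 4 * (p 0 ^ 2 + p 1 ^ 2) + p 2 ^ 2 + p 3 ^ 2 = 4 * lam ^ 2 ∧
      2 * p 0 * p 2 * p 3 - p 1 * p 2 ^ 2 + p 1 * p 3 ^ 2
        = s * lam * (p 2 ^ 2 + p 3 ^ 2)} := by
  classical
  have hX : ∀ (i : Fin 4) (k : ℕ), (MvPolynomial.X i ^ k : MvPolynomial (Fin 4) ℝ).totalDegree ≤ k :=
    fun i k => (MvPolynomial.totalDegree_pow _ _).trans (by simp [MvPolynomial.totalDegree_X])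
  have hX1 : ∀ (i : Fin 4), (MvPolynomial.X i : MvPolynomial (Fin 4) ℝ).totalDegree ≤ 1 :=
    fun i => by simp [MvPolynomial.totalDegree_X]
  have hC : ∀ a : ℝ, (MvPolynomial.C a : MvPolynomial (Fin 4) ℝ).totalDegree ≤ 0 :=
    fun a => by simp
  have hadd : ∀ (P Q : MvPolynomial (Fin 4) ℝ) (n : ℕ), P.totalDegree ≤ n → Q.totalDegree ≤ n →
      (P + Q).totalDegree ≤ n := fun P Q n h1 h2 =>
    (MvPolynomial.totalDegree_add _ _).trans (max_le h1 h2)
  have hsub : ∀ (P Q : MvPolynomial (Fin 4) ℝ) (n : ℕ), P.totalDegree ≤ n → Q.totalDegree ≤ n →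
      (P - Q).totalDegree ≤ n := fun P Q n h1 h2 =>
    (MvPolynomial.totalDegree_sub _ _).trans (max_le h1 h2)
  have hmul : ∀ (P Q : MvPolynomial (Fin 4) ℝ) (a b n : ℕ), P.totalDegree ≤ a → Q.totalDegree ≤ b →
      a + b ≤ n → (P * Q).totalDegree ≤ n := fun P Q a b n h1 h2 h3 =>
    (MvPolynomial.totalDegree_mul _ _).trans ((add_le_add h1 h2).trans h3)
  refine ⟨[MvPolynomial.C 4 * (MvPolynomial.X 0 ^ 2 + MvPolynomial.X 1 ^ 2) +
      MvPolynomial.X 2 ^ 2 + MvPolynomial.X 3 ^ 2 - MvPolynomial.C (4 * lam ^ 2),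
    MvPolynomial.C 2 * MvPolynomial.X 0 * MvPolynomial.X 2 * MvPolynomial.X 3 -
      MvPolynomial.X 1 * MvPolynomial.X 2 ^ 2 + MvPolynomial.X 1 * MvPolynomial.X 3 ^ 2 -
      MvPolynomial.C (s * lam) * (MvPolynomial.X 2 ^ 2 + MvPolynomial.X 3 ^ 2)], ?_, ?_⟩
  · intro P hP
    simp only [List.mem_cons, List.not_mem_nil, or_false] at hP
    rcases hP with rfl | rfl
    · refine hsub _ _ _ (hadd _ _ _ (hadd _ _ _ ?_ ((hX 2 2).trans (by norm_num)))
        ((hX 3 2).trans (by norm_num))) ((hC _).trans (by norm_num))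
      exact hmul _ _ 0 2 3 (hC _) (hadd _ _ _ (hX 0 2) (hX 1 2)) (by norm_num)
    · refine hsub _ _ _ (hadd _ _ _ (hsub _ _ _ ?_ ?_) ?_) ?_
      · exact hmul _ _ 2 1 3 (hmul _ _ 1 1 2 (hmul _ _ 0 1 1 (hC _) (hX1 0) (by norm_num)) (hX1 2)
          (by norm_num)) (hX1 3) (by norm_num)
      · exact hmul _ _ 1 2 3 (hX1 1) (hX 2 2) (by norm_num)
      · exact hmul _ _ 1 2 3 (hX1 1) (hX 3 2) (by norm_num)
      · exact hmul _ _ 0 2 3 (hC _) (hadd _ _ _ (hX 2 2) (hX 3 2)) (by norm_num)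
  · ext p
    simp only [Set.mem_ofPred_eq, List.mem_cons, List.not_mem_nil, or_false, forall_eq_or_imp,
      forall_eq, map_add, map_sub, map_mul, map_pow, MvPolynomial.eval_X, MvPolynomial.eval_C,
      sub_eq_zero]

theorem theta_int (Θ : ℝ → ℝ) (d : ℝ) (hd : 0 < d) (hp : ∀ y, Θ (y + d) = Θ y + 2 * π) (y : ℝ)
    (n : ℤ) : Θ (y + n * d) = Θ y + 2 * π * n := by
  have h1 : Function.Periodic (fun y => Θ y - 2 * π / d * y) d := by
    intro y
    show Θ (y + d) - 2 * π / d * (y + d) = Θ y - 2 * π / d * y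
    rw [hp]
    field_simp
    ring
  have h2 := h1.int_mul n y
  have h3 : Θ (y + n * d) - 2 * π / d * (y + n * d) = Θ y - 2 * π / d * y := h2
  have h4 : 2 * π / d * (y + n * d) = 2 * π / d * y + 2 * π * n := by
    field_simp
  rw [h4] at h3
  linarith

theorem good (c d : ℝ) (hc : 0 < c) (hd : 0 < d)
    (h : 2 * π * d ≤ (∫ t in (0 : ℝ)..(2 * π), √(1 + 3 * cos t ^ 2)) * c) :
    ∃ F : ℝ × ℝ → EuclideanSpace ℝ (Fin 4), IsKleinImmersion c d F ∧
      IsOrderThree (Set.range F) ∧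
      ∀ p q, F p = F q → SamePoint c d p q ∨ (OnCore d p ∧ OnCore d q) := by
  have hlam : 0 < c / (2 * π) := by positivity
  obtain ⟨lam, hl⟩ : ∃ lam, lam = c / (2 * π) := ⟨_, rfl⟩
  rw [← hl] at hlam
  have hcl : c = 2 * π * lam := by
    rw [hl]
    field_simp
  obtain ⟨s, hs0, hs1, hs⟩ := exists_s (d / lam) (by positivity) (by
    rw [div_le_iff₀ hlam, hl, mul_div_assoc', le_div_iff₀ (by positivity)]
    linarith)
  obtain ⟨Θ, hΘ, hder, hsurj, hinj, hodd, hper⟩ := exists_theta s lam hs0 hs1 hlam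
  have hds : lam * ∫ t in (0 : ℝ)..(2 * π), hh s t = d := by
    rw [hs]
    field_simp
  rw [hds] at hper
  have hint := theta_int Θ d hd hper
  have h0 : Θ 0 = 0 := by
    have := hodd 0
    rw [neg_zero] at this
    linarith
  have hhalf : Θ (d / 2) = π := by
    have h1 := hper (-(d / 2))
    have h2 := hodd (d / 2)
    have h3 : -(d / 2) + d = d / 2 := by ring
    rw [h3, h2] at h1
    linarith
  refine ⟨FF s lam Θ, ⟨FF_smooth s lam Θ hΘ, ?_, ?_,
    fun p a b => FF_isom s lam hs0 hs1 hlam Θ hΘ hder p a b⟩, ?_, ?_⟩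
  · intro x y
    show G s lam (x / lam - s * √(1 - s ^ 2) * cos (Θ (y + d))) (Θ (y + d)) =
      G s lam (x / lam - s * √(1 - s ^ 2) * cos (Θ y)) (Θ y)
    rw [hper, G, G, cos_add_two_pi, sin_add_two_pi]
  · intro x y
    show G s lam ((x + c) / lam - s * √(1 - s ^ 2) * cos (Θ (d - y))) (Θ (d - y)) =
      G s lam (x / lam - s * √(1 - s ^ 2) * cos (Θ y)) (Θ y)
    have h1 : Θ (d - y) = -Θ y + 2 * π := by
      have h2 : d - y = -y + d := by ring
      rw [h2, hper, hodd]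
    have h3 : (x + c) / lam = x / lam + 2 * π := by
      rw [hcl]
      field_simp
    rw [h1, cos_add_two_pi, cos_neg, h3]
    have h4 : x / lam + 2 * π - s * √(1 - s ^ 2) * cos (Θ y) =
        (x / lam - s * √(1 - s ^ 2) * cos (Θ y)) + 2 * π := by ring
    rw [h4]
    set u := x / lam - s * √(1 - s ^ 2) * cos (Θ y)
    have h5 : (u + 2 * π) / 2 = u / 2 + π := by ring
    rw [G, G, h5, cos_add_two_pi, sin_add_two_pi, cos_add_two_pi, sin_add_two_pi, cos_neg, sin_neg,
      cos_add_pi, sin_add_pi]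
    simp only [mul_neg, neg_mul, neg_neg]
  · have hrange : Set.range (FF s lam Θ) =
        {p | 4 * (p 0 ^ 2 + p 1 ^ 2) + p 2 ^ 2 + p 3 ^ 2 = 4 * lam ^ 2 ∧
          2 * p 0 * p 2 * p 3 - p 1 * p 2 ^ 2 + p 1 * p 3 ^ 2
            = s * lam * (p 2 ^ 2 + p 3 ^ 2)} := by
      ext p
      constructor
      · rintro ⟨q, rfl⟩
        exact G_zero s lam _ _ hs0 hs1
      · rintro ⟨h1, h2⟩
        obtain ⟨u, t, hut⟩ := G_surj s lam hs0 hs1 hlam (p 0) (p 1) (p 2) (p 3) h1 h2
        obtain ⟨y, rfl⟩ := hsurj t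
        refine ⟨(lam * (u + s * √(1 - s ^ 2) * cos (Θ y)), y), ?_⟩
        show G s lam (lam * (u + s * √(1 - s ^ 2) * cos (Θ y)) / lam -
          s * √(1 - s ^ 2) * cos (Θ y)) (Θ y) = p
        rw [mul_div_cancel_left₀ _ hlam.ne', add_sub_cancel_right, hut]
        ext i
        fin_cases i <;> rfl
    rw [hrange]
    exact order_three s lam
  · rintro ⟨x, y⟩ ⟨x', y'⟩ hpq
    rcases G_inj s lam hs0 hs1 hlam _ _ _ _ hpq with ⟨h1, h2⟩ | ⟨m, n, h1, h2⟩
    · right
      have hcore : ∀ z, sin (Θ z) = 0 → ∃ k : ℤ, z = k * (d / 2) := by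
        intro z hz
        obtain ⟨k, hk⟩ := sin_eq_zero_iff.1 hz
        refine ⟨k, hinj ?_⟩
        rw [← hk]
        rcases Int.even_or_odd' k with ⟨j, rfl | rfl⟩
        · have h3 := hint 0 j
          rw [h0, zero_add, zero_add] at h3
          have h4 : ((2 * j : ℤ) : ℝ) * (d / 2) = j * d := by
            push_cast
            ring
          rw [h4, h3]
          push_cast
          ring
        · have h3 := hint (d / 2) j
          have h4 : ((2 * j + 1 : ℤ) : ℝ) * (d / 2) = d / 2 + j * d := by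
            push_cast
            ring
          rw [h4, h3, hhalf]
          push_cast
          ring
      exact ⟨hcore y h1, hcore y' h2⟩
    · left
      refine ⟨m, n, ?_, ?_⟩
      · show x' = x + m * c
        have h3 : cos (Θ y') = cos (Θ y) := by
          show cos (Θ y') = cos (Θ y)
          have h4 : Θ y' = (-1) ^ m * Θ y + 2 * π * n := h2
          rw [h4]
          have h5 : (-1 : ℝ) ^ m * Θ y + 2 * π * n = (-1 : ℝ) ^ m * Θ y + n * (2 * π) := by ring
          rw [h5, cos_add_int_mul_two_pi]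
          rcases Int.even_or_odd m with hm | hm
          · rw [hm.neg_one_zpow, one_mul]
          · rw [hm.neg_one_zpow, neg_one_mul, cos_neg]
        have h6 : x' / lam - s * √(1 - s ^ 2) * cos (Θ y') =
            x / lam - s * √(1 - s ^ 2) * cos (Θ y) + 2 * π * m := h1
        rw [h3] at h6
        have h7 : x' / lam = x / lam + 2 * π * m := by linarith
        rw [hcl]
        field_simp at h7
        linarith
      · show y' = (-1) ^ m * y + n * d
        apply hinj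
        have h4 : Θ y' = (-1) ^ m * Θ y + 2 * π * n := h2
        rw [h4, hint]
        congr 1
        rcases Int.even_or_odd m with hm | hm
        · rw [hm.neg_one_zpow, one_mul, one_mul]
        · rw [hm.neg_one_zpow, neg_one_mul, neg_one_mul, hodd]

theorem cover (c d : ℝ) (k : ℕ) (hk : 0 < k) (F : ℝ × ℝ → EuclideanSpace ℝ (Fin 4))
    (hF : IsKleinImmersion c (d / k) F) : IsKleinImmersion c d F := by
  have hk0 : (k : ℝ) ≠ 0 := by exact_mod_cast hk.ne'
  have hper : ∀ (j : ℕ) (x y : ℝ), F (x, y + j * (d / k)) = F (x, y) := by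
    intro j
    induction j with
    | zero => intro x y; simp
    | succ j ih =>
      intro x y
      have : y + ((j + 1 : ℕ) : ℝ) * (d / k) = (y + j * (d / k)) + d / k := by push_cast; ring
      rw [this, hF.trans, ih]
  refine ⟨hF.smooth, fun x y => ?_, fun x y => ?_, hF.isom⟩
  · have h := hper k x y
    rwa [mul_div_cancel₀ _ hk0] at h
  · have h1 : d - y = d / k - (y - ((k - 1 : ℕ) : ℝ) * (d / k)) := by
      rw [Nat.cast_sub hk, Nat.cast_one]
      field_simp
      ring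
    rw [h1, hF.flip]
    have h2 := hper (k - 1) x (y - ((k - 1 : ℕ) : ℝ) * (d / k))
    rw [sub_add_cancel] at h2
    exact h2.symm

theorem result :
    (∀ c d : ℝ, 0 < c → 0 < d → ∃ F : ℝ × ℝ → EuclideanSpace ℝ (Fin 4),
      IsKleinImmersion c d F ∧ IsOrderThree (Set.range F)) ∧
    (∀ c d : ℝ, 0 < c → 0 < d →
      2 * π * d ≤ (∫ t in (0 : ℝ)..(2 * π), √(1 + 3 * cos t ^ 2)) * c →
      ∃ F : ℝ × ℝ → EuclideanSpace ℝ (Fin 4), IsKleinImmersion c d F ∧
        IsOrderThree (Set.range F) ∧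
        ∀ p q, F p = F q → SamePoint c d p q ∨ (OnCore d p ∧ OnCore d q)) := by
  refine ⟨?_, good⟩
  intro c d hc hd
  have hT : 0 < ∫ t in (0 : ℝ)..(2 * π), √(1 + 3 * cos t ^ 2) := by
    apply intervalIntegral.intervalIntegral_pos_of_pos
    · exact Continuous.intervalIntegrable (by fun_prop) _ _
    · intro t
      positivity
    · positivity
  obtain ⟨k, hk⟩ := exists_nat_gt (2 * π * d / ((∫ t in (0 : ℝ)..(2 * π), √(1 + 3 * cos t ^ 2)) * c))
  have hpos : 0 < 2 * π * d / ((∫ t in (0 : ℝ)..(2 * π), √(1 + 3 * cos t ^ 2)) * c) := by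
    positivity
  have hkR : (0 : ℝ) < k := hpos.trans hk
  have hk0 : 0 < k := by exact_mod_cast hkR
  obtain ⟨F, hF, hF3, _⟩ := good c (d / k) hc (by positivity) (by
    rw [div_lt_iff₀ (by positivity)] at hk
    rw [mul_div_assoc', div_le_iff₀ hkR]
    linarith)
  exact ⟨F, cover c d k hk0 F hF, hF3⟩

end Pool.Agent.Results.MP_886b5a_gt.CubicKlein
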